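import Mathlib
import Pool.Agent.Run7.h767.ST.Gal

/-!
# The derivatives at `0` of partial zeta functions by prime ideals, and Stark's conjecture over
ATR fields

(A) Let `K` be a number field, `𝔣` an ideal, `0 ≠ 𝔣 ≠ 𝓞 K`, `P` a set of real embeddings of `K`;
suppose that `K` has a complex place or that `P` does not contain all the real embeddings. Let `A`
be a homomorphism from the ray class group modulo `𝔣 P` to a finite commutative group `G` (for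
instance the Artin map of an abelian extension). For `ρ ∈ G` the partial zeta function
`ζ(ρ, s) = ∑_(A(𝔞) = ρ) N(𝔞)^(-s)` has a continuation, analytic outside of `1`, it vanishes at `0`,
and for every `γ > π / 2`

  `ζ'(ρ, 0) = T e^(-Λ_γ) (1 / |G|) ∑_ψ conj ψ(ρ) exp (∑_(τ ∈ G) ψ(τ) S_τ(T)) + O(1 / T)`,

  `S_τ(T) = ∑_(𝔭, k : A(𝔭 ^ k) = τ) (1 / k) e^(i γ u) / Γ(1 + u)`, `u = k log N(𝔭) / T`,

where `ψ` runs through the characters of `G`, and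
`Λ_γ = ∫_0^∞ (e^(-t) - e^(i γ t) / Γ(1 + t)) dt / t`. This is unconditional; no continuation and no
zeros occur on the right: the prime ideals, sorted by their classes, are counted with the weight `1`
(the point `s = 0`). In the group ring of `G` the right side is the coefficient of `ρ` in
`T e^(-Λ_γ) exp (∑_τ S_τ(T) τ)`.

(B) Let `K` be an ATR field, `0 ≠ 𝔣 ≠ 𝓞 K`, and `H` its narrow ray class field modulo `𝔣`. Stark's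
conjecture (Q1) for `K, 𝔣` holds if and only if there is a unit `u` of `H` with the conditions 2, 3 of
Q1 and, in place of condition 1, `lim_(T → ∞) E_ρ(T) = -(1 / e) log |u^ρ|^2` for all `ρ`, where
`E_ρ(T)` is the right side in (A), a sum over prime ideals of `K` sorted by their Frobenius
automorphisms in `H`. The limit may be taken along any sequence (any filter `l ≤ atTop`).
-/

set_option autoImplicit false
set_option linter.unusedSectionVars false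

namespace Pool.Agent.Results.MP_29cb78_nt.PartialZetaByPrimes

open NumberField Filter Topology Asymptotics

section defs

variable {K : Type} [Field K] [NumberField K] {G : Type} [Group G]

/-- `x` is positive at the real embeddings in `P`. -/
def Pos (P : Set (K →+* ℝ)) (x : 𝓞 K) : Prop := ∀ σ ∈ P, 0 < σ (x : K)

/-- The ideals `𝔞` and `𝔟` are in the same class modulo `𝔣 P`: `(x) 𝔞 = (y) 𝔟` with `P`-positive
integers `x, y ≡ 1 mod 𝔣`. -/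
def SameClass (𝔣 : Ideal (𝓞 K)) (P : Set (K →+* ℝ)) (𝔞 𝔟 : Ideal (𝓞 K)) : Prop :=
  ∃ x y : 𝓞 K, (x - 1 ∈ 𝔣 ∧ Pos P x) ∧ (y - 1 ∈ 𝔣 ∧ Pos P y) ∧
    Ideal.span {x} * 𝔞 = Ideal.span {y} * 𝔟

/-- On the ideals prime to `𝔣` the function `A` is a homomorphism from the ray class group modulo
`𝔣 P` to `G` (its values at the other ideals are irrelevant). -/
structure IsRayHom (𝔣 : Ideal (𝓞 K)) (P : Set (K →+* ℝ)) (A : Ideal (𝓞 K) → G) : Prop where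
  mul : ∀ 𝔞 𝔟, IsCoprime 𝔞 𝔣 → IsCoprime 𝔟 𝔣 → A (𝔞 * 𝔟) = A 𝔞 * A 𝔟
  ray : ∀ x : 𝓞 K, x - 1 ∈ 𝔣 → Pos P x → A (Ideal.span {x}) = 1

/-- `H` is the ray class field of `K` modulo `𝔣 P` and `A` is its Artin map (arithmetic
Frobenius automorphisms), on the ideals prime to `𝔣`. -/
structure IsRayClassField (H : Type) [Field H] [NumberField H] [Algebra K H]
    (𝔣 : Ideal (𝓞 K)) (P : Set (K →+* ℝ)) (A : Ideal (𝓞 K) → (H ≃ₐ[K] H)) : Prop where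
  galois : IsGalois K H
  frob : ∀ 𝔭 : Ideal (𝓞 K), 𝔭.IsPrime → 𝔭 ≠ ⊥ → IsCoprime 𝔭 𝔣 → ∀ 𝔓 : Ideal (𝓞 H), 𝔓.IsPrime →
    𝔓.comap (algebraMap (𝓞 K) (𝓞 H)) = 𝔭 → ∀ x : 𝓞 H, ∃ y ∈ 𝔓,
      ((y : 𝓞 H) : H) = A 𝔭 (x : H) - (x : H) ^ Ideal.absNorm 𝔭
  mul : ∀ 𝔞 𝔟, IsCoprime 𝔞 𝔣 → IsCoprime 𝔟 𝔣 → A (𝔞 * 𝔟) = A 𝔞 * A 𝔟
  same : ∀ 𝔞 𝔟, IsCoprime 𝔞 𝔣 → IsCoprime 𝔟 𝔣 → (A 𝔞 = A 𝔟 ↔ SameClass 𝔣 P 𝔞 𝔟)
  surj : ∀ ρ, ∃ 𝔞, IsCoprime 𝔞 𝔣 ∧ A 𝔞 = ρ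

/-- `Z` is the continuation of the partial zeta function
`∑_(𝔞 prime to 𝔣, A(𝔞) = ρ) N(𝔞)^(-s)`. -/
def IsPartialZeta (𝔣 : Ideal (𝓞 K)) (A : Ideal (𝓞 K) → G) (ρ : G) (Z : ℂ → ℂ) : Prop :=
  (∀ s, MeromorphicAt Z s) ∧ AnalyticAt ℂ Z 0 ∧ ∀ s : ℂ, 1 < s.re →
    Z s = ∑' 𝔞 : {𝔞 : Ideal (𝓞 K) // IsCoprime 𝔞 𝔣 ∧ A 𝔞 = ρ},
      ((Ideal.absNorm 𝔞.1 : ℕ) : ℂ) ^ (-s)

open Classical in
/-- `1 / k` if `𝔞 = 𝔭 ^ k` with a prime ideal `𝔭` and `k ≥ 1`, and `0` if `𝔞` is not such a power: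
`log N(rad 𝔞) / log N(𝔞)`. -/
noncomputable def wt (𝔞 : Ideal (𝓞 K)) : ℝ :=
  if IsPrimePow 𝔞 then Real.log (Ideal.absNorm 𝔞.radical) / Real.log (Ideal.absNorm 𝔞) else 0

/-- `(1 / k) e^(i γ u) / Γ(1 + u)`, `u = log N(𝔞) / T`, for `𝔞 = 𝔭 ^ k`. -/
noncomputable def term (γ T : ℝ) (𝔞 : Ideal (𝓞 K)) : ℂ :=
  (wt 𝔞 : ℂ) * Complex.exp ((γ * (Real.log (Ideal.absNorm 𝔞) / T) : ℝ) * Complex.I) *
    ((Real.Gamma (1 + Real.log (Ideal.absNorm 𝔞) / T))⁻¹ : ℝ)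

/-- `S_τ(T)`: the sum over the powers of prime ideals prime to `𝔣` with `A(𝔭 ^ k) = τ`. -/
noncomputable def primeSum (𝔣 : Ideal (𝓞 K)) (A : Ideal (𝓞 K) → G) (τ : G) (γ T : ℝ) : ℂ :=
  ∑' 𝔞 : {𝔞 : Ideal (𝓞 K) // IsCoprime 𝔞 𝔣 ∧ A 𝔞 = τ}, term γ T 𝔞.1

/-- `Λ_γ = ∫_0^∞ (e^(-t) - e^(i γ t) / Γ(1 + t)) dt / t`. -/
noncomputable def Lam (γ : ℝ) : ℂ := ∫ t in Set.Ioi (0 : ℝ),
  (Complex.exp (-(t : ℂ)) - Complex.exp ((γ * t : ℝ) * Complex.I) *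
    ((Real.Gamma (1 + t))⁻¹ : ℝ)) / t

/-- `E_ρ(T) = T e^(-Λ_γ) (1 / |G|) ∑_ψ conj ψ(ρ) exp (∑_τ ψ(τ) S_τ(T))`, `ψ` the characters. -/
noncomputable def approx (𝔣 : Ideal (𝓞 K)) (A : Ideal (𝓞 K) → G) (ρ : G) (γ T : ℝ) : ℂ :=
  T * Complex.exp (-Lam γ) * ((Nat.card G : ℂ)⁻¹ *
    ∑ᶠ ψ : G →* ℂˣ, (starRingEnd ℂ) ((ψ ρ : ℂˣ) : ℂ) *
      Complex.exp (∑ᶠ τ : G, ((ψ τ : ℂˣ) : ℂ) * primeSum 𝔣 A τ γ T))

variable {H : Type} [Field H] [NumberField H] [Algebra K H]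

/-- An ATR field: at least one real place and exactly one complex place. -/
def IsATR (K : Type) [Field K] [NumberField K] : Prop :=
  1 ≤ InfinitePlace.nrRealPlaces K ∧ InfinitePlace.nrComplexPlaces K = 1

/-- `-(1 / e) log |x|^2`, `e` the number of roots of unity in `H`, `|x|` the absolute value of
`ι(x)`. -/
noncomputable def logAt (ι : H →+* ℂ) (x : H) : ℝ :=
  -(1 / (Units.torsionOrder H : ℝ)) * Real.log (‖ι x‖ ^ 2)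

/-- Condition 3: `H(u^(1/e))` is abelian over `K`. -/
def RootAbelian (K : Type) [Field K] [NumberField K] [Algebra K H] (u : H) : Prop :=
  ∃ θ : AlgebraicClosure H, θ ^ Units.torsionOrder H = algebraMap H (AlgebraicClosure H) u ∧
    IsGalois K (IntermediateField.adjoin H {θ}) ∧
      ∀ σ τ : IntermediateField.adjoin H {θ} ≃ₐ[K] IntermediateField.adjoin H {θ}, σ * τ = τ * σ

/-- Condition 2: the complex embeddings of `H` above the real embeddings of `K` map `u` to the unit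
circle. -/
def OnCircle (K : Type) [Field K] [NumberField K] [Algebra K H] (u : H) : Prop :=
  ∀ τ : H →+* ℂ, ComplexEmbedding.IsReal (τ.comp (algebraMap K H)) → ‖τ u‖ = 1

/-- The assertion of Q1 for `K`, `𝔣`, the ray class field `H` with the Artin map `A`, and the
embedding `ι` of `H`. -/
def Stark (𝔣 : Ideal (𝓞 K)) (A : Ideal (𝓞 K) → (H ≃ₐ[K] H)) (ι : H →+* ℂ) : Prop :=
  ∃ u : (𝓞 H)ˣ, (∀ ρ Z, IsPartialZeta 𝔣 A ρ Z → deriv Z 0 = (logAt ι (ρ ((u : 𝓞 H) : H)) : ℂ)) ∧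
    OnCircle K ((u : 𝓞 H) : H) ∧ RootAbelian K ((u : 𝓞 H) : H)

/-- The same assertion with the limit of `E_ρ(T)` along `l` in place of `ζ'(ρ, 0)`. -/
def StarkLim (γ : ℝ) (l : Filter ℝ) (𝔣 : Ideal (𝓞 K)) (A : Ideal (𝓞 K) → (H ≃ₐ[K] H))
    (ι : H →+* ℂ) : Prop :=
  ∃ u : (𝓞 H)ˣ, (∀ ρ, Tendsto (approx 𝔣 A ρ γ) l (𝓝 (logAt ι (ρ ((u : 𝓞 H) : H)) : ℂ))) ∧
    OnCircle K ((u : 𝓞 H) : H) ∧ RootAbelian K ((u : 𝓞 H) : H)

/-- `R` holds for every ATR field `K`, `0 ≠ 𝔣 ≠ 𝓞 K`, the narrow ray class field `H` modulo `𝔣`, its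
Artin map `A` and every embedding `ι` of `H` in `ℂ` which is not real on `K`. -/
def ForAll (R : ∀ (K H : Type) [Field K] [NumberField K] [Field H] [NumberField H] [Algebra K H],
    Ideal (𝓞 K) → (Ideal (𝓞 K) → (H ≃ₐ[K] H)) → (H →+* ℂ) → Prop) : Prop :=
  ∀ (K H : Type) [Field K] [NumberField K] [Field H] [NumberField H] [Algebra K H],
    IsATR K → ∀ 𝔣 : Ideal (𝓞 K), 𝔣 ≠ ⊥ → 𝔣 ≠ ⊤ →
      ∀ A : Ideal (𝓞 K) → (H ≃ₐ[K] H), IsRayClassField H 𝔣 Set.univ A →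
        ∀ ι : H →+* ℂ, ¬ ComplexEmbedding.IsReal (ι.comp (algebraMap K H)) → R K H 𝔣 A ι

end defs

section proofs

variable {K : Type} [Field K] [NumberField K]

open Classical in
lemma term_eq (γ T : ℝ) (𝔞 : Ideal (𝓞 K)) : term γ T 𝔞 = Run7.h767.ST.tm γ T 𝔞 := by
  have h : (wt 𝔞 : ℝ) = Pool.Agent.Y773.VM 𝔞 / Run7.h767.ST.lg 𝔞 := by
    unfold wt Pool.Agent.Y773.VM Run7.h767.ST.lg
    split_ifs
    · rfl
    · rw [zero_div]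
  unfold term
  rw [h]
  rfl

lemma approx_eq {G : Type} [Group G] (𝔣 : Ideal (𝓞 K)) (A : Ideal (𝓞 K) → G) (ρ : G) (γ T : ℝ) :
    approx 𝔣 A ρ γ T = Run7.h767.ST.apG 𝔣 A ρ γ T := by
  have h : ∀ τ : G, primeSum 𝔣 A τ γ T = Run7.h767.ST.SG 𝔣 A τ γ T := by
    intro τ
    unfold primeSum Run7.h767.ST.SG
    exact tsum_congr fun 𝔞 => term_eq γ T 𝔞.1
  unfold approx Run7.h767.ST.apG
  simp only [h]
  rfl

lemma IsRayHom.isArt {G : Type} [Group G] {𝔣 : Ideal (𝓞 K)} {P : Set (K →+* ℝ)}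
    {A : Ideal (𝓞 K) → G} (h : IsRayHom 𝔣 P A) : Run7.h767.ST.IsArt 𝔣 P A :=
  ⟨h.mul, h.ray⟩

/-- (A) -/
lemma partA {P : Set (K →+* ℝ)} (hK : (∃ w : InfinitePlace K, w.IsComplex) ∨ P ≠ Set.univ)
    {𝔣 : Ideal (𝓞 K)} (hbot : 𝔣 ≠ ⊥) (htop : 𝔣 ≠ ⊤) {G : Type} [Group G] [Finite G]
    (hG : ∀ a b : G, a * b = b * a) {A : Ideal (𝓞 K) → G} (hA : IsRayHom 𝔣 P A) (ρ : G) :
    (∃ Z, IsPartialZeta 𝔣 A ρ Z ∧ ∀ s : ℂ, s ≠ 1 → AnalyticAt ℂ Z s) ∧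
      ∀ Z, IsPartialZeta 𝔣 A ρ Z → Z 0 = 0 ∧ ∀ γ : ℝ, Real.pi / 2 < γ →
        (fun T : ℝ => approx 𝔣 A ρ γ T - deriv Z 0) =O[atTop] fun T : ℝ => 1 / T := by
  obtain ⟨Z₀, h1, h2, h3, h4, h5⟩ := Run7.h767.ST.main_G hK hbot htop hG hA.isArt ρ
  have hZ₀ : IsPartialZeta 𝔣 A ρ Z₀ := ⟨h2, h1 0 (by norm_num), h3⟩
  refine ⟨⟨Z₀, hZ₀, h1⟩, fun Z hZ => ?_⟩
  have h6 : Z =ᶠ[𝓝 0] Z₀ := Run7.h767.ST.mero_uniq hZ.1 hZ₀.1 hZ.2.1 hZ₀.2.1 fun s hs => by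
    rw [hZ.2.2 s hs, hZ₀.2.2 s hs]
  refine ⟨h6.eq_of_nhds.trans h4, fun γ hγ => ?_⟩
  rw [h6.deriv_eq]
  exact (h5 γ hγ).congr_left fun T => by rw [approx_eq]

lemma tendsto_of_isBigO {f : ℝ → ℂ} {c : ℂ}
    (h : (fun T : ℝ => f T - c) =O[atTop] fun T : ℝ => 1 / T) : Tendsto f atTop (𝓝 c) := by
  have h1 : Tendsto (fun T : ℝ => f T - c) atTop (𝓝 0) :=
    h.trans_tendsto (tendsto_const_nhds.div_atTop tendsto_id)
  have h2 := h1.add_const c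
  simpa using h2

variable {H : Type} [Field H] [NumberField H] [Algebra K H]

lemma IsRayClassField.comm {𝔣 : Ideal (𝓞 K)} {P : Set (K →+* ℝ)}
    {A : Ideal (𝓞 K) → (H ≃ₐ[K] H)} (h : IsRayClassField H 𝔣 P A) (a b : H ≃ₐ[K] H) :
    a * b = b * a := by
  obtain ⟨𝔞, h𝔞, rfl⟩ := h.surj a
  obtain ⟨𝔟, h𝔟, rfl⟩ := h.surj b
  rw [← h.mul 𝔞 𝔟 h𝔞 h𝔟, ← h.mul 𝔟 𝔞 h𝔟 h𝔞, mul_comm]

lemma IsRayClassField.hom {𝔣 : Ideal (𝓞 K)} {P : Set (K →+* ℝ)}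
    {A : Ideal (𝓞 K) → (H ≃ₐ[K] H)} (h : IsRayClassField H 𝔣 P A) : IsRayHom 𝔣 P A := by
  have h1 : A 1 = 1 := by
    have h2 := h.mul 1 1 isCoprime_one_left isCoprime_one_left
    rw [mul_one] at h2
    exact left_eq_mul.1 h2
  refine ⟨h.mul, fun x hx hp => ?_⟩
  rw [← h1, h.same _ _ (Run7.h767.ST.cop_one hx) isCoprime_one_left]
  refine ⟨1, x, ⟨by rw [sub_self]; exact zero_mem _, fun σ _ => ?_⟩, ⟨hx, hp⟩, ?_⟩
  · have h2 : ((1 : 𝓞 K) : K) = 1 := map_one _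
    rw [h2, map_one]
    exact one_pos
  · rw [Ideal.span_singleton_one, mul_one, ← Ideal.one_eq_top, one_mul]

/-- the derivatives of the partial zeta functions of a ray class field -/
lemma deriv_iff {P : Set (K →+* ℝ)} (hK : (∃ w : InfinitePlace K, w.IsComplex) ∨ P ≠ Set.univ)
    {𝔣 : Ideal (𝓞 K)} (hbot : 𝔣 ≠ ⊥) (htop : 𝔣 ≠ ⊤) {A : Ideal (𝓞 K) → (H ≃ₐ[K] H)}
    (hA : IsRayClassField H 𝔣 P A) {γ : ℝ} (hγ : Real.pi / 2 < γ) {l : Filter ℝ} [l.NeBot]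
    (hl : l ≤ atTop) (ρ : H ≃ₐ[K] H) (c : ℂ) :
    (∀ Z, IsPartialZeta 𝔣 A ρ Z → deriv Z 0 = c) ↔ Tendsto (approx 𝔣 A ρ γ) l (𝓝 c) := by
  obtain ⟨⟨Z₀, hZ₀, -⟩, h⟩ := partA hK hbot htop hA.comm hA.hom ρ
  constructor
  · intro h1
    rw [← h1 Z₀ hZ₀]
    exact (tendsto_of_isBigO ((h Z₀ hZ₀).2 γ hγ)).mono_left hl
  · intro h1 Z hZ
    exact tendsto_nhds_unique ((tendsto_of_isBigO ((h Z hZ).2 γ hγ)).mono_left hl) h1

end proofs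

lemma exists_cpx {K : Type} [Field K] [NumberField K]
    (h : InfinitePlace.nrComplexPlaces K = 1) : ∃ w : InfinitePlace K, w.IsComplex := by
  classical
  have h1 : 0 < Fintype.card {w : InfinitePlace K // w.IsComplex} := by
    have : Fintype.card {w : InfinitePlace K // w.IsComplex} = 1 := by
      convert h
    omega
  obtain ⟨w⟩ := Fintype.card_pos_iff.1 h1
  exact ⟨w.1, w.2⟩

/-- See the header. -/
theorem result :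
    -- (A) the formula, for every number field, modulus and homomorphism to a finite group
    (∀ (K : Type) [Field K] [NumberField K] (P : Set (K →+* ℝ)),
      ((∃ w : InfinitePlace K, w.IsComplex) ∨ P ≠ Set.univ) →
        ∀ 𝔣 : Ideal (𝓞 K), 𝔣 ≠ ⊥ → 𝔣 ≠ ⊤ →
          ∀ (G : Type) [Group G] [Finite G], (∀ a b : G, a * b = b * a) →
            ∀ A : Ideal (𝓞 K) → G, IsRayHom 𝔣 P A → ∀ ρ : G,
              (∃ Z, IsPartialZeta 𝔣 A ρ Z ∧ ∀ s : ℂ, s ≠ 1 → AnalyticAt ℂ Z s) ∧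
              ∀ Z, IsPartialZeta 𝔣 A ρ Z → Z 0 = 0 ∧ ∀ γ : ℝ, Real.pi / 2 < γ →
                (∀ T > 0, Summable fun 𝔞 : Ideal (𝓞 K) => ‖term γ T 𝔞‖) ∧
                (fun T : ℝ => approx 𝔣 A ρ γ T - deriv Z 0) =O[atTop] fun T : ℝ => 1 / T) ∧
    -- (B) Q1
    ∀ (γ : ℝ), Real.pi / 2 < γ → ∀ l : Filter ℝ, l.NeBot → l ≤ atTop →
      ForAll (fun _ _ _ _ _ _ _ 𝔣 A ι => Stark 𝔣 A ι ↔ StarkLim γ l 𝔣 A ι) ∧
      (ForAll (fun _ _ _ _ _ _ _ 𝔣 A ι => Stark 𝔣 A ι) ↔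
        ForAll (fun _ _ _ _ _ _ _ 𝔣 A ι => StarkLim γ l 𝔣 A ι)) := by
  refine ⟨?_, ?_⟩
  · intro K _ _ P hK 𝔣 hbot htop G _ _ hG A hA ρ
    obtain ⟨h1, h2⟩ := partA hK hbot htop hG hA ρ
    refine ⟨h1, fun Z hZ => ⟨(h2 Z hZ).1, fun γ hγ => ⟨fun T hT => ?_, (h2 Z hZ).2 γ hγ⟩⟩⟩
    exact (Run7.h767.ST.tm_summable γ hT).congr fun 𝔞 => by rw [term_eq]
  · intro γ hγ l hl1 hl
    have key : ForAll (fun _ _ _ _ _ _ _ 𝔣 A ι => Stark 𝔣 A ι ↔ StarkLim γ l 𝔣 A ι) := by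
      intro K H _ _ _ _ _ hK 𝔣 hbot htop A hA ι _
      have h1 : ∀ (ρ : H ≃ₐ[K] H) (c : ℂ), (∀ Z, IsPartialZeta 𝔣 A ρ Z → deriv Z 0 = c) ↔
          Tendsto (approx 𝔣 A ρ γ) l (𝓝 c) := fun ρ c =>
        deriv_iff (Or.inl (exists_cpx hK.2)) hbot htop hA hγ hl ρ c
      unfold Stark StarkLim
      simp only [h1]
    refine ⟨key, ?_, ?_⟩
    · intro h K H _ _ _ _ _ hK 𝔣 hbot htop A hA ι hι
      exact (key K H hK 𝔣 hbot htop A hA ι hι).1 (h K H hK 𝔣 hbot htop A hA ι hι)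
    · intro h K H _ _ _ _ _ hK 𝔣 hbot htop A hA ι hι
      exact (key K H hK 𝔣 hbot htop A hA ι hι).2 (h K H hK 𝔣 hbot htop A hA ι hι)

end Pool.Agent.Results.MP_29cb78_nt.PartialZetaByPrimes
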